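import Mathlib
import Pool.Agent.H287Z.A2.Defs
import Pool.Agent.H287Z.A2.Final

set_option autoImplicit false

open MeasureTheory
open scoped NNReal ENNReal

namespace Pool.Agent.Results.MP_f88263_an.ALinearBound

open Pool.Agent.H287Z.A2

/-- Linear `A_2` bound for Calderon-Zygmund operators with respect to a measure of polynomial
growth on `ℝ^d`, with a constant depending only on `d`, `C₀`, `C`, `δ` and a bound `A` for the
norm of `T` on `L²(μ)`. -/
theorem result (d : ℕ) (C₀ C A : ℝ≥0) (δ : ℝ) (hδ : 0 < δ) (_hδ : δ ≤ 1) : ∃ c : ℝ≥0,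
    ∀ (μ : Measure (E d)) (K : E d → E d → ℂ) (T : L2 μ →L[ℂ] L2 μ) (w : E d → ℝ),
      IsGrowth C₀ μ → IsCZKernel C δ K → ‖T‖ ≤ A → IsAssociated μ K T → IsWeight μ w →
      ∀ f : L2 μ, wNorm μ w (T f) ≤ c * A2char μ w * wNorm μ w f :=
  linear_bound d C₀ C A hδ

end Pool.Agent.Results.MP_f88263_an.ALinearBound
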